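import Pool.Agent.X117.Der7

/-!
# The positive and the negative part of the derivatives of Hardy's function

Unconditionally, for `1/2 ≤ k ≤ 2`, every `m ≥ 1` and both signs `σ`: the `2k`-th moment over `[T, 2 T]` of the
positive part of `σ Z^(m)` is of the exact order `T (log T) ^ (k ^ 2 + 2 k m)`, which is the order of the `2k`-th
moment of `|Z^(m)|`.
-/

open Filter Topology Complex MeasureTheory

namespace Pool.Agent.Results.MP_07a3df_nt.OneSignedMoments

/-- the phase `exp (i ϑ(t))`, with `ϑ(t) = arg Γ(1/4 + i t / 2) - (t / 2) log π` -/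
noncomputable def phase (t : ℝ) : ℂ :=
  Gamma (1 / 4 + I * t / 2) / ‖Gamma (1 / 4 + I * t / 2)‖ * cexp (-(I * (t / 2) * Real.log Real.pi))

/-- Hardy's function `Z(t) = exp (i ϑ(t)) ζ(1/2 + i t)`; the product is real, see `Z_eq` -/
noncomputable def Z (t : ℝ) : ℝ := (phase t * riemannZeta (1 / 2 + I * t)).re

theorem Z_eq (t : ℝ) : ((Z t : ℝ) : ℂ) = phase t * riemannZeta (1 / 2 + I * t) :=
  Pool.Agent.X117.HZ.Z_eq t

/-- the `2k`-th moment over `[T, 2 T]` of the positive part of `σ Z^(m)` -/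
noncomputable def part (σ : ℝ) (m : ℕ) (k T : ℝ) : ENNReal :=
  ∫⁻ t in Set.Icc T (2 * T), ENNReal.ofReal (max (σ * iteratedDeriv m Z t) 0 ^ (2 * k))

/-- the upper bound -/
theorem upper (m : ℕ) {k σ : ℝ} (hk : 0 < k) (hk2 : k ≤ 2) (hσ : σ = 1 ∨ σ = -1) :
    ∃ C : ℝ, 0 < C ∧ ∀ᶠ T : ℝ in atTop,
      part σ m k T ≤ ENNReal.ofReal (C * (T * Real.log T ^ (k ^ 2 + 2 * k * m))) := by
  set b : ℕ → ℝ := fun j => if j = m then 2 * k else 0 with hb
  have hbm : b m = 2 * k := by simp [hb]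
  have hbz : ∀ j ∈ Finset.range m, b j = 0 := by
    intro j hj
    rw [Finset.mem_range] at hj
    simp only [hb]
    rw [if_neg (by omega)]
  have htot : Pool.Agent.X117.MS.tot m b = 2 * k := by
    rw [Pool.Agent.X117.MS.tot, Finset.sum_range_succ, Finset.sum_eq_zero hbz, hbm, zero_add]
  have hmex : Pool.Agent.X117.MS.mex m b = k ^ 2 + 2 * k * m := by
    rw [Pool.Agent.X117.MS.mex, htot, Finset.sum_range_succ,
      Finset.sum_eq_zero (fun j hj => by rw [hbz j hj, mul_zero]), hbm]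
    ring
  obtain ⟨C, hC, hup⟩ := Pool.Agent.X117.MS.joint_upper (m := m) (b := b) (fun j _ => by
    simp only [hb]
    split_ifs <;> linarith) (by rw [htot]; linarith) (by rw [htot]; linarith)
  refine ⟨C, hC, ?_⟩
  filter_upwards [hup] with T hT
  rw [hmex] at hT
  refine le_trans ?_ hT
  rw [Pool.Agent.X117.MS.jm, Set.univ_inter, part]
  refine lintegral_mono fun t => ENNReal.ofReal_le_ofReal ?_
  rw [Finset.prod_range_succ, Finset.prod_eq_one (fun j hj => by rw [hbz j hj, Real.rpow_zero]), hbm, one_mul]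
  refine Real.rpow_le_rpow (le_max_right _ _) ?_ (by linarith)
  show max (σ * iteratedDeriv m Z t) 0 ≤ |iteratedDeriv m Z t|
  refine max_le ?_ (abs_nonneg _)
  rcases hσ with h | h <;> rw [h]
  · rw [one_mul]
    exact le_abs_self _
  · rw [neg_one_mul]
    exact neg_le_abs _

/-- see the header -/
theorem result (m : ℕ) (hm : 1 ≤ m) (k σ : ℝ) (hk : 1 / 2 ≤ k) (hk2 : k ≤ 2) (hσ : σ = 1 ∨ σ = -1) :
    (∃ c : ℝ, 0 < c ∧ ∀ᶠ T : ℝ in atTop,
      ENNReal.ofReal (c * (T * Real.log T ^ (k ^ 2 + 2 * k * m))) ≤ part σ m k T) ∧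
    (∃ C : ℝ, 0 < C ∧ ∀ᶠ T : ℝ in atTop,
      part σ m k T ≤ ENNReal.ofReal (C * (T * Real.log T ^ (k ^ 2 + 2 * k * m)))) := by
  refine ⟨?_, upper m (by linarith) hk2 hσ⟩
  obtain ⟨n, rfl⟩ : ∃ n, m = n + 1 := ⟨m - 1, by omega⟩
  obtain ⟨c, hc, h⟩ := Pool.Agent.X117.MS.one_signed hk hk2 n hσ
  refine ⟨c, hc, ?_⟩
  filter_upwards [h] with T hT
  push_cast
  exact hT

end Pool.Agent.Results.MP_07a3df_nt.OneSignedMoments
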